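import Pool.Agent.MP_a88b1d_nt.H42.Spec

/-! Row TREE: the Bruhat-Tits tree. -/

open Polynomial

noncomputable section

namespace Pool.Agent.MP_a88b1d_nt.H50

open Pool.Agent.MP_a88b1d_nt.H42

variable {C : Type} [NontriviallyNormedField C] [Algebra (ZMod 2) C] [IsUltrametricDist C]

omit [Algebra (ZMod 2) C] in
theorem sub_le (x y : C) : ‖x - y‖ ≤ max ‖x‖ ‖y‖ := by
  have := IsUltrametricDist.norm_add_le_max x (-y)
  rwa [norm_neg, ← sub_eq_add_neg] at this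

omit [Algebra (ZMod 2) C] in
theorem norm_eq_of_lt {x y : C} (h : ‖x - y‖ < ‖y‖) : ‖x‖ = ‖y‖ := by
  have := IsUltrametricDist.norm_add_eq_max_of_norm_ne_norm (x := x - y) (y := y) h.ne
  rw [sub_add_cancel] at this
  rw [this, max_eq_right h.le]

omit [Algebra (ZMod 2) C] in
theorem norm_sub_left {x y : C} (h : ‖y‖ < ‖x‖) : ‖x - y‖ = ‖x‖ := by
  apply norm_eq_of_lt
  have : x - y - x = -y := by ring
  rwa [this, norm_neg]

theorem pw {T : C} (h : LT T) {x : C} (hx : x ∈ Finf T) (h0 : x ≠ 0) :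
    ∃ n : ℤ, ‖x‖ = ‖T‖ ^ n := by
  obtain ⟨n, hn⟩ := h.lead x hx h0
  refine ⟨n, ?_⟩
  rw [← norm_zpow] at hn ⊢
  exact norm_eq_of_lt hn

theorem sub_lt {T : C} (hT : 1 < ‖T‖) (h : LT T) {x y : C} (hx : x ∈ Finf T) (hy : y ∈ Finf T)
    {n : ℤ} (h1 : ‖x‖ = ‖T‖ ^ n) (h2 : ‖y‖ = ‖T‖ ^ n) : ‖x - y‖ < ‖T‖ ^ n := by
  have hp : (0 : ℝ) < ‖T‖ ^ n := zpow_pos (by linarith) n
  have key : ∀ z ∈ Finf T, ‖z‖ = ‖T‖ ^ n → ‖z - T ^ n‖ < ‖T‖ ^ n := by
    intro z hz h3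
    have h0 : z ≠ 0 := by
      rintro rfl
      rw [norm_zero] at h3
      linarith
    obtain ⟨m, hm⟩ := h.lead z hz h0
    have h4 : ‖z‖ = ‖T‖ ^ m := by
      rw [← norm_zpow] at hm ⊢
      exact norm_eq_of_lt hm
    have : m = n := zpow_right_injective₀ (by linarith) hT.ne' (h4.symm.trans h3)
    rwa [this] at hm
  have e : x - y = (x - T ^ n) - (y - T ^ n) := by ring
  rw [e]
  exact lt_of_le_of_lt (sub_le _ _) (max_lt (key x hx h1) (key y hy h2))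

theorem disc {T : C} (hT : 1 < ‖T‖) (h : LT T) {x : C} (hx : x ∈ Finf T) {n : ℤ}
    (h1 : ‖x‖ < ‖T‖ ^ n) : ‖T * x‖ ≤ ‖T‖ ^ n := by
  have hp : (0 : ℝ) < ‖T‖ := by linarith
  by_cases h0 : x = 0
  · rw [h0, mul_zero, norm_zero]; exact (zpow_pos hp n).le
  obtain ⟨m, hm⟩ := pw h hx h0
  rw [hm] at h1
  have : m < n := (zpow_lt_zpow_iff_right₀ hT).1 h1
  rw [norm_mul, hm, ← zpow_one_add₀ hp.ne']
  exact zpow_le_zpow_right₀ hT.le (by omega)

omit [Algebra (ZMod 2) C] [IsUltrametricDist C] in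
theorem le_nrm (M : M2 C) (i j : Fin 2) : ‖M i j‖ ≤ nrm M := by
  unfold nrm
  fin_cases i <;> fin_cases j <;> simp

omit [Algebra (ZMod 2) C] [IsUltrametricDist C] in
theorem nrm_le {M : M2 C} {c : ℝ} (h : ∀ i j, ‖M i j‖ ≤ c) : nrm M ≤ c :=
  max_le (max_le (h 0 0) (h 0 1)) (max_le (h 1 0) (h 1 1))

omit [Algebra (ZMod 2) C] [IsUltrametricDist C] in
theorem nrm_att (M : M2 C) : ∃ i j, nrm M = ‖M i j‖ := by
  unfold nrm
  rcases max_choice (max ‖M 0 0‖ ‖M 0 1‖) (max ‖M 1 0‖ ‖M 1 1‖) with h | h <;> rw [h]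
  · rcases max_choice ‖M 0 0‖ ‖M 0 1‖ with h | h
    · exact ⟨0, 0, h⟩
    · exact ⟨0, 1, h⟩
  · rcases max_choice ‖M 1 0‖ ‖M 1 1‖ with h | h
    · exact ⟨1, 0, h⟩
    · exact ⟨1, 1, h⟩

omit [Algebra (ZMod 2) C] [IsUltrametricDist C] in
theorem nrm_nonneg (M : M2 C) : 0 ≤ nrm M := (norm_nonneg _).trans (le_nrm M 0 0)

omit [Algebra (ZMod 2) C] in
theorem nrm_mul (M N : M2 C) : nrm (M * N) ≤ nrm M * nrm N := by
  apply nrm_le
  intro i j
  rw [Matrix.mul_apply, Fin.sum_univ_two]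
  refine (IsUltrametricDist.norm_add_le_max _ _).trans (max_le ?_ ?_) <;> rw [norm_mul] <;>
    exact mul_le_mul (le_nrm _ _ _) (le_nrm _ _ _) (norm_nonneg _) (nrm_nonneg _)

omit [Algebra (ZMod 2) C] in
theorem det_le (M : M2 C) : ‖M.det‖ ≤ nrm M * nrm M := by
  rw [Matrix.det_fin_two]
  refine (sub_le _ _).trans (max_le ?_ ?_) <;> rw [norm_mul] <;>
    exact mul_le_mul (le_nrm _ _ _) (le_nrm _ _ _) (norm_nonneg _) (nrm_nonneg _)

omit [Algebra (ZMod 2) C] [IsUltrametricDist C] in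
theorem nrm_adj (M : M2 C) : nrm M.adjugate = nrm M := by
  unfold nrm
  rw [Matrix.adjugate_fin_two]
  simp only [Matrix.of_apply, Matrix.cons_val', Matrix.cons_val_zero, Matrix.cons_val_one,
    Matrix.cons_val_fin_one, norm_neg]
  simp only [max_comm, max_left_comm, max_assoc]

omit [Algebra (ZMod 2) C] [IsUltrametricDist C] in
theorem nrm_smul (c : C) (M : M2 C) : nrm (c • M) = ‖c‖ * nrm M := by
  unfold nrm
  simp only [Matrix.smul_apply, smul_eq_mul, norm_mul, mul_max_of_nonneg _ _ (norm_nonneg c)]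

omit [Algebra (ZMod 2) C] [IsUltrametricDist C] in
theorem nrm_one : nrm (1 : M2 C) = 1 := by
  unfold nrm
  simp

omit [Algebra (ZMod 2) C] [IsUltrametricDist C] in
theorem adj_adj (M : M2 C) : M.adjugate.adjugate = M := by
  ext i j
  fin_cases i <;> fin_cases j <;> simp [Matrix.adjugate_fin_two]

omit [Algebra (ZMod 2) C] [IsUltrametricDist C] in
theorem det_adj (M : M2 C) : M.adjugate.det = M.det := by
  rw [Matrix.adjugate_fin_two, Matrix.det_fin_two, Matrix.det_fin_two]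
  simp
  ring

omit [IsUltrametricDist C] in
theorem adj_mem {T : C} (x : MK T) : x.1.adjugate ∈ MK T := by
  refine ⟨fun i j => ?_, by rw [det_adj]; exact x.2.2⟩
  have h := x.2.1
  rw [Matrix.adjugate_fin_two]
  fin_cases i <;> fin_cases j <;> simp [h]

omit [IsUltrametricDist C] in
theorem det_mem {T : C} (x : MK T) : x.1.det ∈ Finf T := by
  have h := x.2.1
  rw [Matrix.det_fin_two]
  exact sub_mem (mul_mem (h _ _) (h _ _)) (mul_mem (h _ _) (h _ _))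

theorem ex_det {T : C} (h : LT T) (x : MK T) : ∃ a : ℤ, ‖x.1.det‖ = ‖T‖ ^ a :=
  pw h (det_mem x) x.2.2

theorem ex_nrm {T : C} (h : LT T) {M : M2 C} (hM : M ∈ MK T) : ∃ n : ℤ, nrm M = ‖T‖ ^ n := by
  obtain ⟨i, j, e⟩ := nrm_att M
  rw [e]
  refine pw h (hM.1 i j) fun h0 => hM.2 ?_
  have h1 := det_le M
  rw [e, h0, norm_zero, mul_zero] at h1
  exact norm_le_zero_iff.1 h1

theorem ex_nrm2 {T : C} (h : LT T) (x y : MK T) :
    ∃ n : ℤ, nrm (x.1.adjugate * y.1) = ‖T‖ ^ n :=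
  ex_nrm h (mul_mem (adj_mem x) y.2)

theorem dd_eq {T : C} (hT : 1 < ‖T‖) (x y : MK T) {a b n : ℤ} (ha : ‖x.1.det‖ = ‖T‖ ^ a)
    (hb : ‖y.1.det‖ = ‖T‖ ^ b) (hn : nrm (x.1.adjugate * y.1) = ‖T‖ ^ n) :
    (dd T x y : ℤ) = 2 * n - a - b := by
  have hp : (0 : ℝ) < ‖T‖ := by linarith
  have h1 := det_le (x.1.adjugate * y.1)
  rw [Matrix.det_mul, det_adj, norm_mul, ha, hb, hn, ← zpow_add₀ hp.ne', ← zpow_add₀ hp.ne',
    zpow_le_zpow_iff_right₀ hT] at h1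
  have h2 : nrm (x.1.adjugate * y.1) ^ 2 / (‖x.1.det‖ * ‖y.1.det‖) =
      ‖T‖ ^ (((2 * n - a - b).toNat : ℕ) : ℝ) := by
    rw [ha, hb, hn, Real.rpow_natCast, ← zpow_natCast ‖T‖, Int.toNat_of_nonneg (by omega), sq,
      ← zpow_add₀ hp.ne', ← zpow_add₀ hp.ne', ← zpow_sub₀ hp.ne']
    congr 1
    ring
  unfold dd
  rw [h2, Real.logb_rpow hp hT.ne', Nat.floor_natCast]
  omega

omit [IsUltrametricDist C] in
theorem st_val {T : C} (hT : 1 < ‖T‖) (k : Fin 3) : (st T k).1 = evM T (stA k) := by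
  have h0 : T ≠ 0 := by
    rintro rfl
    rw [norm_zero] at hT
    linarith
  have : evM T (stA k) ∈ MK T := by
    refine ⟨fun i j => aeval_mem_Finf T _, ?_⟩
    fin_cases k <;> simp [evM, stA, Matrix.det_fin_two, h0]
  unfold st pm
  rw [dif_pos this]

omit [IsUltrametricDist C] in
theorem st0 {T : C} (hT : 1 < ‖T‖) : (st T 0).1 = !![1, 0; 0, T] := by
  rw [st_val hT]
  ext i j
  fin_cases i <;> fin_cases j <;> simp [evM, stA]

omit [IsUltrametricDist C] in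
theorem st1 {T : C} (hT : 1 < ‖T‖) : (st T 1).1 = !![1, T; 0, T] := by
  rw [st_val hT]
  ext i j
  fin_cases i <;> fin_cases j <;> simp [evM, stA]

omit [IsUltrametricDist C] in
theorem st2 {T : C} (hT : 1 < ‖T‖) : (st T 2).1 = !![T, 0; 0, 1] := by
  rw [st_val hT]
  ext i j
  fin_cases i <;> fin_cases j <;> simp [evM, stA]

omit [IsUltrametricDist C] in
theorem st_det {T : C} (hT : 1 < ‖T‖) (k : Fin 3) : (st T k).1.det = T := by
  fin_cases k
  · show (st T 0).1.det = T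
    rw [st0 hT]; simp
  · show (st T 1).1.det = T
    rw [st1 hT]; simp
  · show (st T 2).1.det = T
    rw [st2 hT]; simp

omit [IsUltrametricDist C] in
theorem st_nrm {T : C} (hT : 1 < ‖T‖) (k : Fin 3) : nrm (st T k).1 = ‖T‖ := by
  have h0 : (0 : ℝ) ≤ ‖T‖ := by linarith
  fin_cases k
  · show nrm (st T 0).1 = ‖T‖
    rw [st0 hT]; simp [nrm, hT.le]
  · show nrm (st T 1).1 = ‖T‖
    rw [st1 hT]; simp [nrm, hT.le]
  · show nrm (st T 2).1 = ‖T‖
    rw [st2 hT]; simp [nrm, hT.le]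

/-- The condition on a pair of entries. -/
theorem row_iff {T : C} (hT : 1 < ‖T‖) (h : LT T) {p q : C} (hp : p ∈ Finf T) (hq : q ∈ Finf T)
    {n : ℤ} : max ‖T * p‖ ‖T * q‖ ≤ ‖T‖ ^ n ↔ max ‖p‖ ‖q‖ < ‖T‖ ^ n := by
  have hz : (0 : ℝ) < ‖T‖ ^ n := zpow_pos (by linarith) n
  have key : ∀ z : C, ‖T * z‖ ≤ ‖T‖ ^ n → ‖z‖ < ‖T‖ ^ n := by
    intro z h1
    rw [norm_mul] at h1
    by_contra h2
    push Not at h2
    nlinarith
  rw [max_le_iff, max_lt_iff]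
  exact ⟨fun h1 => ⟨key _ h1.1, key _ h1.2⟩, fun h1 => ⟨disc hT h hp h1.1, disc hT h hq h1.2⟩⟩

theorem cases16 {a b c d e f N : ℝ} (ha : a ≤ N) (hb : b ≤ N) (hc : c ≤ N) (hd : d ≤ N)
    (d1 : a = N → d = N → (b < N ∨ c < N) → False)
    (d2 : b = N → c = N → (a < N ∨ d < N) → False)
    (s1 : a = N → c = N → e < N) (s2 : b = N → d = N → f < N)
    (s3 : a < N → c < N → e < N) (s4 : b < N → d < N → f < N) :
    max a b < N ∨ max e f < N ∨ max c d < N := by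
  rcases ha.eq_or_lt with x1 | x1
  · rcases hc.eq_or_lt with x3 | x3
    · rcases hb.eq_or_lt with x2 | x2
      · rcases hd.eq_or_lt with x4 | x4
        · exact Or.inr (Or.inl (max_lt (s1 x1 x3) (s2 x2 x4)))
        · exact (d2 x2 x3 (Or.inr x4)).elim
      · rcases hd.eq_or_lt with x4 | x4
        · exact (d1 x1 x4 (Or.inl x2)).elim
        · exact Or.inr (Or.inl (max_lt (s1 x1 x3) (s4 x2 x4)))
    · rcases hd.eq_or_lt with x4 | x4
      · exact (d1 x1 x4 (Or.inr x3)).elim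
      · exact Or.inr (Or.inr (max_lt x3 x4))
  · rcases hb.eq_or_lt with x2 | x2
    · rcases hc.eq_or_lt with x3 | x3
      · exact (d2 x2 x3 (Or.inl x1)).elim
      · rcases hd.eq_or_lt with x4 | x4
        · exact Or.inr (Or.inl (max_lt (s3 x1 x3) (s2 x2 x4)))
        · exact Or.inr (Or.inr (max_lt x3 x4))
    · exact Or.inl (max_lt x1 x2)

theorem uniq_aux {T : C} (hT : 1 < ‖T‖) (h : LT T) {M : M2 C} (hM : ∀ i j, M i j ∈ Finf T)
    {n : ℤ} (hn : nrm M = ‖T‖ ^ n) (hd : ‖M.det‖ < ‖T‖ ^ n * ‖T‖ ^ n) :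
    ∃! k, nrm ((st T k).1.adjugate * M) = ‖T‖ ^ n := by
  set N := ‖T‖ ^ n with hN
  have hz : (0 : ℝ) < N := zpow_pos (by linarith) n
  set p := M 0 0 with hp
  set q := M 0 1 with hq
  set r := M 1 0 with hr
  set s := M 1 1 with hs
  have hn' : max (max ‖p‖ ‖q‖) (max ‖r‖ ‖s‖) = N := hn
  have b0 : max ‖p‖ ‖q‖ ≤ N := hn' ▸ le_max_left _ _
  have b1 : max ‖r‖ ‖s‖ ≤ N := hn' ▸ le_max_right _ _
  have u0 : max ‖p‖ ‖q‖ ≤ max (max ‖p - r‖ ‖q - s‖) (max ‖r‖ ‖s‖) := by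
    have e1 := IsUltrametricDist.norm_add_le_max (p - r) r
    have e2 := IsUltrametricDist.norm_add_le_max (q - s) s
    rw [sub_add_cancel] at e1 e2
    exact max_le (e1.trans (max_le_max (le_max_left _ _) (le_max_left _ _)))
      (e2.trans (max_le_max (le_max_right _ _) (le_max_right _ _)))
  have u1 : max ‖r‖ ‖s‖ ≤ max (max ‖p‖ ‖q‖) (max ‖p - r‖ ‖q - s‖) := by
    have e1 := sub_le p (p - r)
    have e2 := sub_le q (q - s)
    rw [sub_sub_cancel] at e1 e2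
    exact max_le (e1.trans (max_le_max (le_max_left _ _) (le_max_left _ _)))
      (e2.trans (max_le_max (le_max_right _ _) (le_max_right _ _)))
  have n01 : ¬ (max ‖p‖ ‖q‖ < N ∧ max ‖r‖ ‖s‖ < N) := fun hh => by
    have := max_lt hh.1 hh.2
    rw [hn'] at this
    exact lt_irrefl _ this
  have n02 : ¬ (max ‖p‖ ‖q‖ < N ∧ max ‖p - r‖ ‖q - s‖ < N) := fun hh =>
    n01 ⟨hh.1, lt_of_le_of_lt u1 (max_lt hh.1 hh.2)⟩
  have n12 : ¬ (max ‖r‖ ‖s‖ < N ∧ max ‖p - r‖ ‖q - s‖ < N) := fun hh =>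
    n01 ⟨lt_of_le_of_lt u0 (max_lt hh.2 hh.1), hh.1⟩
  have e0 : nrm ((st T 0).1.adjugate * M) = max (max ‖T * p‖ ‖T * q‖) (max ‖r‖ ‖s‖) := by
    rw [st0 hT]
    simp [nrm, Matrix.adjugate_fin_two, Matrix.mul_apply, Fin.sum_univ_two, hp, hq, hr, hs]
  have e1 : nrm ((st T 1).1.adjugate * M) =
      max (max ‖T * (p - r)‖ ‖T * (q - s)‖) (max ‖r‖ ‖s‖) := by
    rw [st1 hT]
    have a1 : T * (p - r) = T * p + -(T * r) := by ring
    have a2 : T * (q - s) = T * q + -(T * s) := by ring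
    rw [a1, a2]
    simp [nrm, Matrix.adjugate_fin_two, Matrix.mul_apply, Fin.sum_univ_two, hp, hq, hr, hs]
  have e2 : nrm ((st T 2).1.adjugate * M) = max (max ‖p‖ ‖q‖) (max ‖T * r‖ ‖T * s‖) := by
    rw [st2 hT]
    simp [nrm, Matrix.adjugate_fin_two, Matrix.mul_apply, Fin.sum_univ_two, hp, hq, hr, hs]
  have c0 : nrm ((st T 0).1.adjugate * M) = N ↔ max ‖p‖ ‖q‖ < N := by
    rw [e0, ← row_iff hT h (hM 0 0) (hM 0 1)]
    constructor
    · intro hh; exact (le_max_left _ _).trans hh.le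
    · intro hh
      have h3 := (row_iff hT h (hM 0 0) (hM 0 1)).1 hh
      have h4 : max ‖r‖ ‖s‖ = N := le_antisymm b1 (not_lt.1 fun h5 => n01 ⟨h3, h5⟩)
      rw [h4]; exact max_eq_right hh
  have c1 : nrm ((st T 1).1.adjugate * M) = N ↔ max ‖p - r‖ ‖q - s‖ < N := by
    have m1 : p - r ∈ Finf T := sub_mem (hM 0 0) (hM 1 0)
    have m2 : q - s ∈ Finf T := sub_mem (hM 0 1) (hM 1 1)
    rw [e1, ← row_iff hT h m1 m2]
    constructor
    · intro hh; exact (le_max_left _ _).trans hh.le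
    · intro hh
      have h3 := (row_iff hT h m1 m2).1 hh
      have h4 : max ‖r‖ ‖s‖ = N := le_antisymm b1 (not_lt.1 fun h5 => n12 ⟨h5, h3⟩)
      rw [h4]; exact max_eq_right hh
  have c2 : nrm ((st T 2).1.adjugate * M) = N ↔ max ‖r‖ ‖s‖ < N := by
    rw [e2, ← row_iff hT h (hM 1 0) (hM 1 1)]
    constructor
    · intro hh; exact (le_max_right _ _).trans hh.le
    · intro hh
      have h3 := (row_iff hT h (hM 1 0) (hM 1 1)).1 hh
      have h4 : max ‖p‖ ‖q‖ = N := le_antisymm b0 (not_lt.1 fun h5 => n01 ⟨h5, h3⟩)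
      rw [h4]; exact max_eq_left hh
  have ex : max ‖p‖ ‖q‖ < N ∨ max ‖p - r‖ ‖q - s‖ < N ∨ max ‖r‖ ‖s‖ < N := by
    have hp' : ‖p‖ ≤ N := (le_max_left _ _).trans b0
    have hq' : ‖q‖ ≤ N := (le_max_right _ _).trans b0
    have hr' : ‖r‖ ≤ N := (le_max_left _ _).trans b1
    have hs' : ‖s‖ ≤ N := (le_max_right _ _).trans b1
    rw [Matrix.det_fin_two, ← hp, ← hq, ← hr, ← hs] at hd
    have d1 : ‖p‖ = N → ‖s‖ = N → (‖q‖ < N ∨ ‖r‖ < N) → False := by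
      intro x1 x2 x3
      have y1 : ‖p * s‖ = N * N := by rw [norm_mul, x1, x2]
      have y2 : ‖q * r‖ < ‖p * s‖ := by
        rw [y1, norm_mul]
        rcases x3 with x3 | x3
        · exact mul_lt_mul_of_lt_of_le_of_nonneg_of_pos x3 hr' (norm_nonneg _) hz
        · exact mul_lt_mul_of_le_of_lt_of_nonneg_of_pos hq' x3 (norm_nonneg _) hz
      rw [norm_sub_left y2, y1] at hd
      exact lt_irrefl _ hd
    have d2 : ‖q‖ = N → ‖r‖ = N → (‖p‖ < N ∨ ‖s‖ < N) → False := by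
      intro x1 x2 x3
      have y1 : ‖q * r‖ = N * N := by rw [norm_mul, x1, x2]
      have y2 : ‖p * s‖ < ‖q * r‖ := by
        rw [y1, norm_mul]
        rcases x3 with x3 | x3
        · exact mul_lt_mul_of_lt_of_le_of_nonneg_of_pos x3 hs' (norm_nonneg _) hz
        · exact mul_lt_mul_of_le_of_lt_of_nonneg_of_pos hp' x3 (norm_nonneg _) hz
      rw [norm_sub_rev, norm_sub_left y2, y1] at hd
      exact lt_irrefl _ hd
    have s1 : ‖p‖ = N → ‖r‖ = N → ‖p - r‖ < N := sub_lt hT h (hM 0 0) (hM 1 0)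
    have s2 : ‖q‖ = N → ‖s‖ = N → ‖q - s‖ < N := sub_lt hT h (hM 0 1) (hM 1 1)
    have s3 : ‖p‖ < N → ‖r‖ < N → ‖p - r‖ < N := fun x y =>
      lt_of_le_of_lt (sub_le _ _) (max_lt x y)
    have s4 : ‖q‖ < N → ‖s‖ < N → ‖q - s‖ < N := fun x y =>
      lt_of_le_of_lt (sub_le _ _) (max_lt x y)
    exact cases16 hp' hq' hr' hs' d1 d2 s1 s2 s3 s4
  rcases ex with x | x | x
  · refine ⟨0, c0.2 x, fun k hk => ?_⟩
    fin_cases k
    · rfl
    · exact absurd ⟨x, c1.1 hk⟩ n02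
    · exact absurd ⟨x, c2.1 hk⟩ n01
  · refine ⟨1, c1.2 x, fun k hk => ?_⟩
    fin_cases k
    · exact absurd ⟨c0.1 hk, x⟩ n02
    · rfl
    · exact absurd ⟨c2.1 hk, x⟩ n12
  · refine ⟨2, c2.2 x, fun k hk => ?_⟩
    fin_cases k
    · exact absurd ⟨c0.1 hk, x⟩ n01
    · exact absurd ⟨x, c1.1 hk⟩ n12
    · rfl

theorem tree (T : C) (hT : 1 < ‖T‖) (h : LT T) : TREE T := by
  have hp : (0 : ℝ) < ‖T‖ := by linarith
  refine ⟨⟨?_, ?_, ?_, ?_, ?_, ?_, ?_⟩, ?_⟩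
  · intro x y
    obtain ⟨a, ha⟩ := ex_det h x
    obtain ⟨b, hb⟩ := ex_det h y
    obtain ⟨n, hn⟩ := ex_nrm2 h x y
    have hn' : nrm (y.1.adjugate * x.1) = ‖T‖ ^ n := by
      rw [← hn, ← nrm_adj (x.1.adjugate * y.1), Matrix.adjugate_mul_distrib, adj_adj]
    have e1 := dd_eq hT x y ha hb hn
    have e2 := dd_eq hT y x hb ha hn'
    omega
  · intro x
    obtain ⟨a, ha⟩ := ex_det h x
    have hn : nrm (x.1.adjugate * x.1) = ‖T‖ ^ a := by
      rw [Matrix.adjugate_mul, nrm_smul, nrm_one, mul_one, ha]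
    have e1 := dd_eq hT x x ha ha hn
    omega
  · intro x y z
    obtain ⟨a, ha⟩ := ex_det h x
    obtain ⟨b, hb⟩ := ex_det h y
    obtain ⟨c, hc⟩ := ex_det h z
    obtain ⟨n1, h1⟩ := ex_nrm2 h x y
    obtain ⟨n2, h2⟩ := ex_nrm2 h y z
    obtain ⟨n3, h3⟩ := ex_nrm2 h x z
    have e : (x.1.adjugate * y.1) * (y.1.adjugate * z.1) = y.1.det • (x.1.adjugate * z.1) := by
      rw [Matrix.mul_assoc, ← Matrix.mul_assoc y.1, Matrix.mul_adjugate, Matrix.smul_mul,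
        Matrix.one_mul, Matrix.mul_smul]
    have h4 := nrm_mul (x.1.adjugate * y.1) (y.1.adjugate * z.1)
    rw [e, nrm_smul, hb, h1, h2, h3, ← zpow_add₀ hp.ne', ← zpow_add₀ hp.ne',
      zpow_le_zpow_iff_right₀ hT] at h4
    have e1 := dd_eq hT x y ha hb h1
    have e2 := dd_eq hT y z hb hc h2
    have e3 := dd_eq hT x z ha hc h3
    omega
  · intro g x y
    obtain ⟨a, ha⟩ := ex_det h x
    obtain ⟨b, hb⟩ := ex_det h y
    obtain ⟨c, hc⟩ := ex_det h g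
    obtain ⟨n, hn⟩ := ex_nrm2 h x y
    have ha' : ‖(g * x).1.det‖ = ‖T‖ ^ (c + a) := by
      rw [Submonoid.coe_mul, Matrix.det_mul, norm_mul, ha, hc, zpow_add₀ hp.ne']
    have hb' : ‖(g * y).1.det‖ = ‖T‖ ^ (c + b) := by
      rw [Submonoid.coe_mul, Matrix.det_mul, norm_mul, hb, hc, zpow_add₀ hp.ne']
    have hn' : nrm ((g * x).1.adjugate * (g * y).1) = ‖T‖ ^ (c + n) := by
      rw [Submonoid.coe_mul, Submonoid.coe_mul, Matrix.adjugate_mul_distrib, Matrix.mul_assoc,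
        ← Matrix.mul_assoc g.1.adjugate, Matrix.adjugate_mul, Matrix.smul_mul, Matrix.one_mul,
        Matrix.mul_smul, nrm_smul, hc, hn, zpow_add₀ hp.ne']
    have e1 := dd_eq hT x y ha hb hn
    have e2 := dd_eq hT (g * x) (g * y) ha' hb' hn'
    omega
  · intro x y z
    obtain ⟨a, ha⟩ := ex_det h x
    obtain ⟨b, hb⟩ := ex_det h y
    obtain ⟨c, hc⟩ := ex_det h z
    obtain ⟨n1, h1⟩ := ex_nrm2 h x y
    obtain ⟨n2, h2⟩ := ex_nrm2 h y z
    obtain ⟨n3, h3⟩ := ex_nrm2 h x z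
    have e1 := dd_eq hT x y ha hb h1
    have e2 := dd_eq hT y z hb hc h2
    have e3 := dd_eq hT x z ha hc h3
    omega
  · intro k
    have ha : ‖(1 : MK T).1.det‖ = ‖T‖ ^ (0 : ℤ) := by simp
    have hb : ‖(st T k).1.det‖ = ‖T‖ ^ (1 : ℤ) := by rw [st_det hT, zpow_one]
    have hn : nrm ((1 : MK T).1.adjugate * (st T k).1) = ‖T‖ ^ (1 : ℤ) := by
      rw [OneMemClass.coe_one, Matrix.adjugate_one, Matrix.one_mul, st_nrm hT, zpow_one]
    have e1 := dd_eq hT 1 (st T k) ha hb hn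
    omega
  · intro x u hxu
    obtain ⟨a, ha⟩ := ex_det h x
    obtain ⟨b, hb⟩ := ex_det h u
    obtain ⟨n, hn⟩ := ex_nrm2 h x u
    have e1 := dd_eq hT x u ha hb hn
    have hd : ‖(x.1.adjugate * u.1).det‖ < ‖T‖ ^ n * ‖T‖ ^ n := by
      rw [Matrix.det_mul, det_adj, norm_mul, ha, hb, ← zpow_add₀ hp.ne', ← zpow_add₀ hp.ne',
        zpow_lt_zpow_iff_right₀ hT]
      omega
    have key := uniq_aux hT h (mul_mem (adj_mem x) u.2).1 hn hd
    refine (existsUnique_congr fun k => ?_).1 key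
    obtain ⟨m, hm⟩ := ex_nrm2 h (x * st T k) u
    have ha' : ‖(x * st T k).1.det‖ = ‖T‖ ^ (a + 1) := by
      rw [Submonoid.coe_mul, Matrix.det_mul, norm_mul, ha, st_det hT, zpow_add_one₀ hp.ne']
    have e2 := dd_eq hT (x * st T k) u ha' hb hm
    rw [Submonoid.coe_mul, Matrix.adjugate_mul_distrib, Matrix.mul_assoc] at hm
    rw [hm, (zpow_right_injective₀ hp hT.ne').eq_iff]
    omega
  · intro x y
    obtain ⟨a, ha⟩ := ex_det h x
    obtain ⟨b, hb⟩ := ex_det h y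
    obtain ⟨n, hn⟩ := ex_nrm2 h x y
    have e1 := dd_eq hT x y ha hb hn
    rw [ha, hb, hn, ← zpow_natCast, e1, sq, ← zpow_add₀ hp.ne', ← zpow_add₀ hp.ne',
      ← zpow_add₀ hp.ne']
    congr 1
    ring

end Pool.Agent.MP_a88b1d_nt.H50
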